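import Pool.Agent.H94.PA.M11
import Pool.Agent.H94.PA.M25

/-! # Bounds and limits of the kernels -/

namespace Pool.Agent.H63.VC4

open Pool.Agent.H63.VC Pool.Agent.H63.VC3 Complex Filter Topology
open scoped BigOperators

theorem KBN_natCast_mul_re (M : ℕ) (z : ℂ) : ((M : ℂ) * z).re = M * z.re := by
  have : (M : ℂ) = ((M : ℝ) : ℂ) := by push_cast; rfl
  rw [this, Complex.re_ofReal_mul]

theorem KBN_Qo_bound (n : ℕ) : ∃ C : ℝ, 0 < C ∧ ∀ M : ℕ, 1 ≤ M → ∀ (u : Option ℂ) (v : ℂ),
    (∀ y ∈ u, 4 / 100 ≤ (y - v).re ∧ (y - v).re ≤ 46 / 100 ∧ 4 / 100 ≤ (y + v).re ∧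
      (y + v).re ≤ 46 / 100 ∧ |y.im| ≤ 1 / 10) → |v.im| ≤ 1 / 10 →
    ‖Qo n M u v‖ ≤ C / M * Real.exp (M * (po u v).re) := by
  obtain ⟨C₀, hC₀, hL⟩ := LL_asym (4 / 100) (2 / 10) (by norm_num)
  refine ⟨(2 * Real.exp (Real.pi * (1 / 10))) ^ (n - 2) + Real.exp (2 * C₀), by positivity, ?_⟩
  intro M hM u v hu h6
  have hM0 : (0 : ℝ) < M := by exact_mod_cast hM
  have hM1 : (1 : ℝ) ≤ M := by exact_mod_cast hM
  cases u with
  | none =>
    have hb : ‖Bn n M v‖ ≤ (2 * Real.exp (Real.pi * (1 / 10))) ^ (n - 2) := by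
      refine (KB_Bn_norm n M v).trans (pow_le_pow_left₀ (by positivity) ?_ _)
      refine mul_le_mul_of_nonneg_left (Real.exp_le_exp.2 ?_) (by norm_num)
      exact mul_le_mul_of_nonneg_left h6 Real.pi_pos.le
    simp only [Qo, po, Complex.zero_re, mul_zero, Real.exp_zero, mul_one]
    rw [norm_div, Complex.norm_natCast]
    refine div_le_div_of_nonneg_right (hb.trans ?_) hM0.le
    linarith [Real.exp_pos (2 * C₀)]
  | some y =>
    obtain ⟨h1, h2, h3, h4, h5⟩ := hu y rfl
    have him1 : |(y - v).im| ≤ 2 / 10 := by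
      rw [Complex.sub_im]; rw [abs_le] at *; constructor <;> linarith
    have him2 : |(y + v).im| ≤ 2 / 10 := by
      rw [Complex.add_im]; rw [abs_le] at *; constructor <;> linarith
    have hA := hL M hM (y - v) h1 (by linarith) him1
    have hB := hL M hM (y + v) h3 (by linarith) him2
    have hCM : C₀ / M ≤ C₀ := div_le_self hC₀.le hM1
    have hA' := (abs_le.1 ((Complex.abs_re_le_norm _).trans (hA.trans hCM))).1
    have hB' := (abs_le.1 ((Complex.abs_re_le_norm _).trans (hB.trans hCM))).1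
    have e1 : ((Real.log M : ℂ) / 2).re = Real.log M / 2 := by
      have : ((Real.log M : ℂ) / 2) = ((Real.log M / 2 : ℝ) : ℂ) := by push_cast; ring
      rw [this, Complex.ofReal_re]
    rw [Complex.sub_re, Complex.sub_re, e1, KBN_natCast_mul_re] at hA' hB'
    simp only [Qo, po]
    rw [Complex.norm_exp]
    have h8 : Real.exp (2 * C₀) / M * Real.exp (M * (-ff (y - v) - ff (y + v)).re) =
        Real.exp (2 * C₀ - Real.log M + M * (-ff (y - v) - ff (y + v)).re) := by
      rw [Real.exp_add, Real.exp_sub, Real.exp_log hM0]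
    calc Real.exp (-LL M (M * (y - v) - 1 / 2) - LL M (M * (y + v) - 1 / 2)).re
        ≤ Real.exp (2 * C₀) / M * Real.exp (M * (-ff (y - v) - ff (y + v)).re) := by
          rw [h8]
          refine Real.exp_le_exp.2 ?_
          rw [Complex.sub_re, Complex.neg_re, Complex.sub_re, Complex.neg_re]
          linarith
      _ ≤ _ := by
          refine mul_le_mul_of_nonneg_right (div_le_div_of_nonneg_right ?_ hM0.le)
            (Real.exp_pos _).le
          have : 0 ≤ (2 * Real.exp (Real.pi * (1 / 10))) ^ (n - 2) := by positivity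
          linarith

/-- A slot is either always empty or always the same vertex. -/
theorem KBN_ext_cases {m : ℕ} (k : Fin (m + 2)) : (∀ f : Fin m → ℂ, ext f k = none) ∨
    ∃ j : Fin m, ∀ f : Fin m → ℂ, ext f k = some (f j) := by
  refine Fin.cases (Or.inl fun f => rfl) (fun i => ?_) k
  refine Fin.lastCases (Or.inl fun f => ext_last_succ f) (fun i => ?_) i
  exact Or.inr ⟨i, fun f => ext_mid f i⟩

/-! ### Limits -/

/-- The limit of the factor of a slot. -/
noncomputable def KBN_Lq (n : ℕ) : Option ℂ → ℂ → ℂ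
  | none, v => (2 * cos (Real.pi * v)) ^ (n - 2)
  | some _, _ => 1

theorem KBN_Qo_lim {m : ℕ} (n : ℕ) (k : Fin (m + 2)) (y : Fin m → ℂ) (v : ℂ)
    (Y : ℕ → Fin m → ℂ) (V : ℕ → ℂ) (hY : ∀ j, Tendsto (fun M => Y M j) atTop (𝓝 (y j)))
    (hV : Tendsto V atTop (𝓝 v)) (hok : okS v (ext y k)) :
    Tendsto (fun M : ℕ => (M : ℂ) * Qo n M (ext (Y M) k) (V M) *
      exp (-M * po (ext (Y M) k) (V M))) atTop (𝓝 (KBN_Lq n (ext y k) v)) := by
  rcases KBN_ext_cases k with h | ⟨j, h⟩
  · simp only [h]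
    simp only [Qo, po, KBN_Lq, mul_zero, Complex.exp_zero, mul_one]
    refine (KB_Bn_lim n v V hV).congr' ?_
    filter_upwards [eventually_ge_atTop 1] with M hM
    have hM0 : (M : ℂ) ≠ 0 := by
      have : M ≠ 0 := by omega
      exact_mod_cast this
    field_simp
  · simp only [h] at hok ⊢
    obtain ⟨h1, h2, h3, h4⟩ := hok (y j) rfl
    have hE1 := KB_asym_tendsto (y j - v) (fun M => Y M j - V M) ((hY j).sub hV) h1 h2
    have hE2 := KB_asym_tendsto (y j + v) (fun M => Y M j + V M) ((hY j).add hV) h3 h4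
    have hexp : Tendsto (fun M : ℕ => exp (-(LL M (M * (Y M j - V M) - 1 / 2) -
        Real.log M / 2 - M * ff (Y M j - V M)) - (LL M (M * (Y M j + V M) - 1 / 2) -
        Real.log M / 2 - M * ff (Y M j + V M)))) atTop (𝓝 1) := by
      have h := (Complex.continuous_exp.tendsto _).comp ((hE1.neg).sub hE2)
      rw [neg_zero, sub_zero, Complex.exp_zero] at h
      exact h
    simp only [Qo, po, KBN_Lq]
    refine hexp.congr' ?_
    filter_upwards [eventually_ge_atTop 1] with M hM
    have hM0 : (0 : ℝ) < M := by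
      have : 0 < M := by omega
      exact_mod_cast this
    have hlog : (M : ℂ) = exp (Real.log M) := by
      rw [← Complex.ofReal_exp, Real.exp_log hM0]; push_cast; rfl
    rw [mul_assoc, ← Complex.exp_add]
    conv_rhs => rw [hlog]
    rw [← Complex.exp_add]
    congr 1
    rw [← hlog]
    ring

/-- A phase. -/
theorem KBN_om (n M : ℕ) (v : ℂ) : om n M v * exp (-M * (2 * Real.pi * I * v)) =
    (-1) ^ (M + n + 1) * (1 / (1 - ww n M v) ^ 2) := by
  have h : ww n M v * exp (-M * (2 * Real.pi * I * v)) = (-1) ^ (M + n + 1) := by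
    unfold ww
    rw [← Complex.exp_add]
    have e1 : 2 * Real.pi * I * (M * (v + 1 / 2) - bt n) + -M * (2 * Real.pi * I * v) =
        (M : ℂ) * (Real.pi * I) + (n + 1 : ℕ) * (Real.pi * I) - (n : ℂ) * (2 * Real.pi * I) := by
      unfold bt
      push_cast
      ring
    rw [e1, Complex.exp_sub, Complex.exp_add, Complex.exp_nat_mul, Complex.exp_nat_mul,
      Complex.exp_pi_mul_I, Complex.exp_nat_mul_two_pi_mul_I, div_one]
    ring
  unfold om
  rw [div_mul_eq_mul_div, h]
  ring

end Pool.Agent.H63.VC4
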